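import Mathlib
import Pool.Agent.H759R2.Kad.Props3

open scoped ComplexOrder InnerProductSpace ComplexConjugate
open Finset

noncomputable section

namespace H759R2.Kad

namespace A11

/-- weight of a sequence -/
def W {n : ℕ} (p : Fin n → Fin n → ℝ) (k : ℕ) (σ : Fin (k + 1) → Fin n) : ℝ :=
  pword p (σ 0) (List.ofFn fun t : Fin k => σ t.succ)

theorem W_cons {n : ℕ} (p : Fin n → Fin n → ℝ) (k : ℕ) (a : Fin n) (τ : Fin (k + 1) → Fin n) :
    W p (k + 1) (Fin.cons a τ) = p a (τ 0) * W p k τ := by
  unfold W
  simp [List.ofFn_succ, pword]

theorem W_nonneg {n : ℕ} (p : Fin n → Fin n → ℝ) (hp : ∀ i j, 0 ≤ p i j) :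
    ∀ (k : ℕ) (σ : Fin (k + 1) → Fin n), 0 ≤ W p k σ := by
  intro k
  induction k with
  | zero => intro σ; simp [W, pword]
  | succ k ih =>
    intro σ
    rw [← Fin.cons_self_tail σ, W_cons]
    exact mul_nonneg (hp _ _) (ih _)

theorem sum_cons {n k : ℕ} (f : (Fin (k + 2) → Fin n) → ℝ) :
    ∑ σ, f σ = ∑ τ : Fin (k + 1) → Fin n, ∑ a : Fin n, f (Fin.cons a τ) := by
  rw [← (Fin.consEquiv (fun _ : Fin (k + 2) => Fin n)).sum_comp, Fintype.sum_prod_type_right]
  rfl

theorem last_cons {n k : ℕ} (a : Fin n) (τ : Fin (k + 1) → Fin n) :
    (Fin.cons a τ : Fin (k + 2) → Fin n) (Fin.last (k + 1)) = τ (Fin.last k) := by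
  rw [← Fin.succ_last, Fin.cons_succ]

theorem total {n : ℕ} (p : Fin n → Fin n → ℝ) (h1 : ∀ j, ∑ i, p i j = 1) (j : Fin n) :
    ∀ k : ℕ, ∑ σ : Fin (k + 1) → Fin n, (if σ (Fin.last k) = j then W p k σ else 0) = 1 := by
  intro k
  induction k with
  | zero =>
    have h : ∀ σ : Fin (0 + 1) → Fin n, (if σ (Fin.last 0) = j then W p 0 σ else 0) =
        if σ = fun _ => j then 1 else 0 := by
      intro σ
      have : (σ (Fin.last 0) = j) ↔ (σ = fun _ => j) := by
        constructor
        · intro h
          funext i
          have : i = Fin.last 0 := Fin.ext (by have := i.isLt; simp only [Fin.val_last]; omega)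
          rw [this, h]
        · intro h
          rw [h]
      simp only [this]
      split_ifs <;> simp [W, pword]
    simp only [h]
    rw [Finset.sum_ite_eq' univ (fun _ : Fin (0 + 1) => j) (fun _ => (1 : ℝ))]
    simp
  | succ k ih =>
    rw [sum_cons, ← ih]
    refine Finset.sum_congr rfl fun τ _ => ?_
    simp only [last_cons, W_cons]
    split_ifs
    · rw [← Finset.sum_mul, h1, one_mul]
    · simp

open Classical in
theorem nonInj {n : ℕ} (p : Fin n → Fin n → ℝ) (δ : ℝ) (hp : ∀ i j, 0 ≤ p i j)
    (h1 : ∀ j, ∑ i, p i j = 1) (hδ : ∀ i j, p i j ≤ δ) (j : Fin n) :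
    ∀ k : ℕ, ∑ σ : Fin (k + 1) → Fin n,
      (if σ (Fin.last k) = j ∧ ¬ Function.Injective σ then W p k σ else 0) ≤
        (k + 1) ^ 2 * δ := by
  have hδ0 : 0 ≤ δ := (hp j j).trans (hδ j j)
  intro k
  induction k with
  | zero =>
    have : ∀ σ : Fin (0 + 1) → Fin n,
        (if σ (Fin.last 0) = j ∧ ¬ Function.Injective σ then W p 0 σ else 0) = 0 := by
      intro σ
      have : Function.Injective σ := fun a b _ =>
        Fin.ext (by have := a.isLt; have := b.isLt; omega)
      simp [this]
    simp only [this, Finset.sum_const_zero]
    positivity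
  | succ k ih =>
    rw [sum_cons]
    have hstep : ∀ τ : Fin (k + 1) → Fin n,
        ∑ a : Fin n, (if (Fin.cons a τ : Fin (k + 2) → Fin n) (Fin.last (k + 1)) = j ∧
          ¬ Function.Injective (Fin.cons a τ : Fin (k + 2) → Fin n) then
            W p (k + 1) (Fin.cons a τ) else 0) ≤
        (if τ (Fin.last k) = j ∧ ¬ Function.Injective τ then W p k τ else 0) +
          (k + 1) * δ * (if τ (Fin.last k) = j then W p k τ else 0) := by
      intro τ
      simp only [last_cons, W_cons, Fin.cons_injective_iff]
      by_cases hj : τ (Fin.last k) = j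
      · simp only [hj, true_and, if_true]
        have hW := W_nonneg p hp k τ
        calc ∑ a : Fin n, (if ¬ (a ∉ Set.range τ ∧ Function.Injective τ) then
              p a (τ 0) * W p k τ else 0)
            ≤ ∑ a : Fin n, ((if ¬ Function.Injective τ then p a (τ 0) * W p k τ else 0) +
              ∑ t : Fin (k + 1), if τ t = a then p a (τ 0) * W p k τ else 0) := by
              refine Finset.sum_le_sum fun a _ => ?_
              have hnn : 0 ≤ p a (τ 0) * W p k τ := mul_nonneg (hp _ _) hW
              have hsn : 0 ≤ ∑ t : Fin (k + 1), (if τ t = a then p a (τ 0) * W p k τ else 0) :=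
                Finset.sum_nonneg fun t _ => by split_ifs <;> [exact hnn; exact le_refl _]
              by_cases hI : Function.Injective τ
              · by_cases ha : a ∈ Set.range τ
                · obtain ⟨t, rfl⟩ := ha
                  have h2 : (p (τ t) (τ 0) * W p k τ) ≤
                      ∑ t' : Fin (k + 1), (if τ t' = τ t then p (τ t) (τ 0) * W p k τ else 0) := by
                    have := Finset.single_le_sum (f := fun t' : Fin (k + 1) =>
                      if τ t' = τ t then p (τ t) (τ 0) * W p k τ else 0)
                      (fun t' _ => by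
                        show (0 : ℝ) ≤ if τ t' = τ t then p (τ t) (τ 0) * W p k τ else 0
                        split_ifs <;> [exact hnn; exact le_refl _]) (Finset.mem_univ t)
                    simpa using this
                  simpa [hI] using h2
                · simp only [ha, hI, not_false_eq_true, true_and, not_true_eq_false, if_false,
                    zero_add]
                  exact hsn
              · simp only [hI, and_false, not_false_eq_true, if_true]
                linarith
          _ = (if ¬ Function.Injective τ then W p k τ else 0) +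
              ∑ t : Fin (k + 1), p (τ t) (τ 0) * W p k τ := by
              rw [Finset.sum_add_distrib]
              congr 1
              · by_cases hI : Function.Injective τ
                · simp [hI]
                · simp only [hI, not_false_eq_true, if_true]
                  rw [← Finset.sum_mul, h1, one_mul]
              · rw [Finset.sum_comm]
                refine Finset.sum_congr rfl fun t _ => ?_
                rw [Finset.sum_ite_eq univ (τ t) (fun a => p a (τ 0) * W p k τ)]
                simp
          _ ≤ (if ¬ Function.Injective τ then W p k τ else 0) +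
              (k + 1) * δ * W p k τ := by
              have : ∑ t : Fin (k + 1), p (τ t) (τ 0) * W p k τ ≤
                  ∑ _t : Fin (k + 1), δ * W p k τ :=
                Finset.sum_le_sum fun t _ => mul_le_mul_of_nonneg_right (hδ _ _) hW
              rw [Finset.sum_const, Finset.card_univ, Fintype.card_fin, nsmul_eq_mul] at this
              push_cast at this
              linarith
      · simp [hj]
    refine (Finset.sum_le_sum fun τ _ => hstep τ).trans ?_
    rw [Finset.sum_add_distrib, ← Finset.mul_sum, total p h1 j k]
    push_cast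
    nlinarith [ih, Nat.cast_nonneg (α := ℝ) k]

end A11

theorem prove3_path : K_path := by
  intro n p δ hp h1 hδ k j
  classical
  have ht := A11.total p h1 j k
  have hn := A11.nonInj p δ hp h1 hδ j k
  have hsplit : ∑ σ : Fin (k + 1) → Fin n, (if σ (Fin.last k) = j then A11.W p k σ else 0) =
      ∑ σ ∈ univ.filter (fun σ : Fin (k + 1) → Fin n => σ (Fin.last k) = j ∧
        Function.Injective σ), pword p (σ 0) (List.ofFn fun t : Fin k => σ t.succ) +
      ∑ σ : Fin (k + 1) → Fin n,
        (if σ (Fin.last k) = j ∧ ¬ Function.Injective σ then A11.W p k σ else 0) := by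
    rw [Finset.sum_filter, ← Finset.sum_add_distrib]
    refine Finset.sum_congr rfl fun σ _ => ?_
    by_cases h : σ (Fin.last k) = j
    · by_cases hi : Function.Injective σ
      · simp [h, hi, A11.W]
      · simp [h, hi]
    · simp [h]
  have hnn : 0 ≤ ∑ σ : Fin (k + 1) → Fin n,
      (if σ (Fin.last k) = j ∧ ¬ Function.Injective σ then A11.W p k σ else 0) :=
    Finset.sum_nonneg fun σ _ => by
      split_ifs
      · exact A11.W_nonneg p hp k σ
      · exact le_refl _
  constructor
  · linarith
  · linarith

end H759R2.Kad
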